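import Pool.Agent.CarT.Opt
import Pool.Agent.CarT.Cir
import Pool.Agent.CarT.Torv
import Pool.Agent.CarT.Grp

/-! MP_3a96d9_an: a Cartan subalgebra of `L(T_d)` contains only finitely many `λ_g`. -/

namespace Pool.Agent.Results.MP_3a96d9_an.FinitelyManyUnitaries

open CarT

theorem torsion (d : ℕ) (hd : 2 ≤ d) (G : Subgroup (Equiv.Perm X)) (hF : Fd d hd ≤ G)
    (hV : G ≤ Vd d hd) (A : Set (Op G)) (hA : IsCartan (groupVN G) A) (x : G)
    (hl : lam x ∈ A) : ∃ n : ℕ, 0 < n ∧ x ^ n = 1 := by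
  by_contra hcon
  push Not at hcon
  have hx : ∀ n : ℕ, 0 < n → x ^ n ≠ 1 := fun n hn => hcon n hn
  have hn := lamnull A hA x hx hl
  obtain ⟨g, hg, hno⟩ := vno d hd (x : Equiv.Perm X) (hV x.2) (fun n hn0 h => hx n hn0 (by
    apply Subtype.ext
    simpa using h))
  obtain ⟨N, hN, k, m, hk, hm, he⟩ := comm2 A hA x hx hn ⟨g, hF hg⟩
  refine hno N hN k m hk hm ?_
  have := congrArg (Subtype.val) he
  simpa using this

theorem fin_main (d : ℕ) (hd : 2 ≤ d) (G : Subgroup (Equiv.Perm X)) (hF : Fd d hd ≤ G)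
    (hT : G ≤ Td d hd) (A : Set (Op G)) (hA : IsCartan (groupVN G) A) (A0 : Subgroup G)
    (h0 : ∀ g, g ∈ A0 ↔ lam g ∈ A) (hc : ∀ a ∈ A0, ∀ b ∈ A0, a * b = b * a) : Finite A0 := by
  classical
  have hV : G ≤ Vd d hd := fun f hf => (hT hf).1
  have ht : ∀ a ∈ A0, ∃ n : ℕ, 0 < n ∧ a ^ n = 1 := fun a ha =>
    torsion d hd G hF hV A hA a ((h0 a).1 ha)
  by_contra hnf
  have hlt : ∀ k : ℕ, k < 3 → k < d ^ 2 := by
    intro k hk
    nlinarith
  choose g hg using fun k : Fin 3 => expush d 2 k hd (hlt k k.2)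
  have hgG : ∀ k : Fin 3, g k ∈ G := fun k => hF (hg k).fd
  choose B hB1 hB2 hB3 using fun k : Fin 3 => finone A hA A0 h0 ⟨g k, hgG k⟩
  -- the intersection of the three subgroups
  have hBi : (⨅ k : Fin 3, B k).relIndex A0 ≠ 0 := by
    exact Subgroup.relIndex_iInf_ne_zero hB2
  -- a nontrivial element
  have hex : ∃ b ∈ (⨅ k : Fin 3, B k), b ≠ 1 := by
    by_contra hcon
    push Not at hcon
    have hbot : (⨅ k : Fin 3, B k) = ⊥ := by
      rw [Subgroup.eq_bot_iff_forall]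
      exact hcon
    rw [hbot, Subgroup.relIndex_bot_left] at hBi
    exact hnf (Nat.finite_of_card_ne_zero hBi)
  obtain ⟨b, hbB, hb1⟩ := hex
  have hbA : b ∈ A0 := hB1 0 ((Subgroup.mem_iInf.mp hbB) 0)
  obtain ⟨N, hN, hbN⟩ := ht b hbA
  have hb1' : (b : Equiv.Perm X) ≠ 1 := fun h => hb1 (Subtype.ext h)
  obtain ⟨i, k, hk, hik⟩ := tthree d hd (b : Equiv.Perm X) (hT b.2) N hN
    (by have := congrArg Subtype.val hbN; simpa using this) hb1'
  obtain ⟨A1, hA1, hA1i, hA1c⟩ := hB3 ⟨k, hk⟩ (b ^ i)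
    (Subgroup.pow_mem _ ((Subgroup.mem_iInf.mp hbB) ⟨k, hk⟩) i)
  -- a nontrivial element of `A1`
  have hex : ∃ x ∈ A1, x ≠ 1 := by
    by_contra hcon
    push Not at hcon
    have hbot : A1 = ⊥ := by
      rw [Subgroup.eq_bot_iff_forall]
      exact hcon
    rw [hbot, Subgroup.relIndex_bot_left] at hA1i
    exact hnf (Nat.finite_of_card_ne_zero hA1i)
  obtain ⟨x, hxA1, hx1⟩ := hex
  obtain ⟨M, hM, hxM⟩ := ht x (hA1 hxA1)
  have hx1' : (x : Equiv.Perm X) ≠ 1 := fun h => hx1 (Subtype.ext h)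
  have hfree := tfree d hd (x : Equiv.Perm X) (hT x.2) M hM
    (by have := congrArg Subtype.val hxM; simpa using this) hx1'
  -- commutation
  have hc1 : x * b ^ i = b ^ i * x := hc x (hA1 hxA1) _ (Subgroup.pow_mem _ hbA i)
  have hc2 := hA1c x hxA1
  set gk : G := ⟨g ⟨k, hk⟩, hgG ⟨k, hk⟩⟩ with hgk
  have hc3 : x * (gk * b ^ i * gk⁻¹ * (b ^ i)⁻¹) = (gk * b ^ i * gk⁻¹ * (b ^ i)⁻¹) * x := by
    have e1 : x * (b ^ i)⁻¹ = (b ^ i)⁻¹ * x := by
      have h := (show Commute x (b ^ i) from hc1).inv_right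
      exact h
    calc x * (gk * b ^ i * gk⁻¹ * (b ^ i)⁻¹) = (x * (gk * b ^ i * gk⁻¹)) * (b ^ i)⁻¹ := by group
      _ = ((gk * b ^ i * gk⁻¹) * x) * (b ^ i)⁻¹ := by rw [hc2]
      _ = (gk * b ^ i * gk⁻¹) * (x * (b ^ i)⁻¹) := by group
      _ = (gk * b ^ i * gk⁻¹) * ((b ^ i)⁻¹ * x) := by rw [e1]
      _ = _ := by group
  obtain ⟨s, hs, hs'⟩ := cpt d 2 k hd (hlt k hk) (1 / 2) (by norm_num) (by norm_num)
  refine hfree s ?_
  refine toridv d 2 k hd (hlt k hk) (g ⟨k, hk⟩) ((b : Equiv.Perm X) ^ i) (x : Equiv.Perm X)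
    (hg ⟨k, hk⟩) ?_ hik (hV x.2) ?_ M hM (by have := congrArg Subtype.val hxM; simpa using this)
    s (by rw [hs']; norm_num) (by rw [hs']; norm_num)
  · have : (b ^ i : G).1 ∈ Vd d hd := hV (b ^ i).2
    exact this
  · have := congrArg Subtype.val hc3
    simpa using this

/-- Let `d ≥ 2`, `F_d ≤ G ≤ T_d` and `A` a Cartan subalgebra of `L(G)`. Then `λ_g ∈ A` for only
finitely many `g ∈ G`. -/
theorem result (d : ℕ) (hd : 2 ≤ d) (G : Subgroup (Equiv.Perm X)) (hF : Fd d hd ≤ G)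
    (hT : G ≤ Td d hd) (A : Set (Op G)) (hA : IsCartan (groupVN G) A) :
    {g : G | lam g ∈ A}.Finite := by
  obtain ⟨A0, h0, hc⟩ := azero A hA
  have := fin_main d hd G hF hT A hA A0 h0 hc
  refine (Set.toFinite (A0 : Set G)).subset fun g hg => (h0 g).2 hg

end Pool.Agent.Results.MP_3a96d9_an.FinitelyManyUnitaries
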