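import Pool.Agent.CarT.Opr
import Pool.Agent.CarT.Act
import Pool.Agent.CarT.Grp

/-! MP_3a96d9_an: Cartan subalgebras of `L(F_d)`, `L(T_d)`, `L(V_d)`. -/

namespace Pool.Agent.Results.MP_3a96d9_an.NoGroupElements

open CarT

theorem part1 (d : ℕ) (hd : 2 ≤ d) (G : Subgroup (Equiv.Perm X)) (hF : Fd d hd ≤ G)
    (hV : G ≤ Vd d hd) (A : Set (Op G)) (hA : IsCartan (groupVN G) A) (x : G)
    (hx : ∀ n : ℕ, 0 < n → x ^ n ≠ 1) :
    ¬ HasNullUnitaries (A ∩ subVN (Subgroup.zpowers x)) := by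
  intro hn
  obtain ⟨g, hg, hno⟩ := vno d hd (x : Equiv.Perm X) (hV x.2) (fun n hn0 h => hx n hn0 (by
    apply Subtype.ext
    simpa using h))
  obtain ⟨N, hN, k, m, hk, hm, he⟩ := comm2 A hA x hx hn ⟨g, hF hg⟩
  refine hno N hN k m hk hm ?_
  have := congrArg (Subtype.val) he
  simpa using this

/-- Let `d ≥ 2`, `F_d ≤ G ≤ V_d`, let `A` be a Cartan subalgebra of `L(G)` and let `x ∈ G` have
infinite order. Then `A ∩ L(⟨x⟩)` contains no sequence of unitaries tending weakly to `0` (it is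
not diffuse); in particular `λ_x ∉ A`. -/
theorem result (d : ℕ) (hd : 2 ≤ d) (G : Subgroup (Equiv.Perm X)) (hF : Fd d hd ≤ G)
    (hV : G ≤ Vd d hd) (A : Set (Op G)) (hA : IsCartan (groupVN G) A) (x : G)
    (hx : ∀ n : ℕ, 0 < n → x ^ n ≠ 1) :
    ¬ HasNullUnitaries (A ∩ subVN (Subgroup.zpowers x)) ∧ lam x ∉ A :=
  ⟨part1 d hd G hF hV A hA x hx, fun hl =>
    part1 d hd G hF hV A hA x hx (lamnull A hA x hx hl)⟩

end Pool.Agent.Results.MP_3a96d9_an.NoGroupElements
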